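import Pool.Agent.Helper64.RN.Goals

/-!
Packet RN-SP: a connected configuration which is not uniform has a split quartet.
-/

open scoped BigOperators

universe u

namespace Pool.Agent.Helper87.RN.SP

open Module Pool.Agent.Helper64.IG Pool.Agent.Helper64.RN

variable {K : Type u} [Field K] {E : Type} [Fintype E] [DecidableEq E] {p : ℕ}
  {v : E → Fin p → K}

lemma R_le_of_subset_span (X Y : Finset E)
    (h : ∀ e ∈ X, v e ∈ Submodule.span K (v '' (Y : Set E))) : R v X ≤ Y.card := by
  classical
  unfold R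
  have h1 : Submodule.span K (v '' (X : Set E)) ≤ Submodule.span K (v '' (Y : Set E)) := by
    rw [Submodule.span_le]
    rintro _ ⟨e, he, rfl⟩
    exact h e (by simpa using he)
  refine (Submodule.finrank_mono h1).trans ?_
  have h2 : v '' (Y : Set E) = ((Y.image v : Finset (Fin p → K)) : Set (Fin p → K)) := by
    simp
  rw [h2]
  exact (finrank_span_finset_le_card _).trans Finset.card_image_le

lemma R_eq_iff (X : Finset E) : R v X = p ↔ Submodule.span K (v '' (X : Set E)) = ⊤ := by
  unfold R
  constructor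
  · intro h
    apply Submodule.eq_top_of_finrank_eq
    rw [h]
    simp
  · intro h
    rw [h]
    simp

lemma exists_base (h : R v Finset.univ = p) : ∃ B : Finset E, B.card = p ∧ R v B = p := by
  classical
  rw [R_eq_iff] at h
  obtain ⟨κ, a, ha, hsp, hli⟩ := exists_linearIndependent' K v
  have hfin : Finite κ := Finite.of_injective a ha
  have : Fintype κ := Fintype.ofFinite κ
  refine ⟨Finset.univ.image a, ?_, ?_⟩
  · rw [Finset.card_image_of_injective _ ha, Finset.card_univ]
    have h1 := finrank_span_eq_card hli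
    rw [← h1, hsp]
    have h2 : Set.range v = v '' ((Finset.univ : Finset E) : Set E) := by simp
    rw [h2, h]
    simp
  · rw [R_eq_iff]
    have h1 : v '' ((Finset.univ.image a : Finset E) : Set E) = Set.range (v ∘ a) := by
      ext x
      simp
    rw [h1, hsp]
    have h2 : Set.range v = v '' ((Finset.univ : Finset E) : Set E) := by simp
    rw [h2, h]

lemma coords (B : Finset E) (hc : B.card = p) (hB : R v B = p) :
    ∃ φ : E → ((Fin p → K) →ₗ[K] K), (∀ x, x = ∑ i ∈ B, φ i x • v i) ∧
      ∀ i ∈ B, ∀ j ∈ B, φ i (v j) = if i = j then 1 else 0 := by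
  classical
  rw [R_eq_iff] at hB
  have hr : Set.range (fun i : B => v i) = v '' (B : Set E) := by
    ext x
    simp
  let b : Basis B K (Fin p → K) := basisOfTopLeSpanOfCardEqFinrank (fun i : B => v i)
    (by rw [hr, hB]) (by simp [hc])
  have hb : ∀ i : B, b i = v i := by
    intro i
    simp [b]
  refine ⟨fun i => if h : i ∈ B then b.coord ⟨i, h⟩ else 0, ?_, ?_⟩
  · intro x
    conv_lhs => rw [← b.sum_repr x]
    rw [← Finset.sum_coe_sort B]
    refine Finset.sum_congr rfl ?_
    rintro ⟨i, hi⟩ -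
    simp [hb, hi]
  · intro i hi j hj
    simp only [hi, dif_pos]
    have h1 : v j = b ⟨j, hj⟩ := (hb ⟨j, hj⟩).symm
    rw [h1, Basis.coord_apply, Basis.repr_self, Finsupp.single_apply]
    simp only [Subtype.mk.injEq]
    by_cases h : i = j
    · simp [h]
    · simp [h, Ne.symm h]

lemma exch (B : Finset E) (φ : E → ((Fin p → K) →ₗ[K] K))
    (hφ : ∀ x, x = ∑ i ∈ B, φ i x • v i) (i : E) (hi : i ∈ B) (e : E) (h : φ i (v e) ≠ 0)
    (W : Submodule K (Fin p → K)) (he : v e ∈ W) (hW : ∀ j ∈ B, j ≠ i → φ j (v e) ≠ 0 → v j ∈ W) :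
    v i ∈ W := by
  classical
  have h1 := hφ (v e)
  rw [← Finset.add_sum_erase _ _ hi] at h1
  have h2 : φ i (v e) • v i ∈ W := by
    have h3 : φ i (v e) • v i = v e - ∑ j ∈ B.erase i, φ j (v e) • v j := by
      rw [eq_sub_iff_add_eq, ← h1]
    rw [h3]
    refine W.sub_mem he (W.sum_mem ?_)
    intro j hj
    rw [Finset.mem_erase] at hj
    by_cases h4 : φ j (v e) = 0
    · rw [h4, zero_smul]
      exact W.zero_mem
    · exact W.smul_mem _ (hW j hj.2 hj.1 h4)
  have h3 := W.smul_mem (φ i (v e))⁻¹ h2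
  rwa [smul_smul, inv_mul_cancel₀ h, one_smul] at h3

lemma R_full (B X : Finset E) (hB : R v B = p)
    (h : ∀ i ∈ B, v i ∈ Submodule.span K (v '' (X : Set E))) : R v X = p := by
  rw [R_eq_iff] at hB ⊢
  rw [eq_top_iff, ← hB, Submodule.span_le]
  rintro _ ⟨i, hi, rfl⟩
  exact h i (by simpa using hi)

lemma mem_sp (X : Finset E) (e : E) (h : e ∈ X) :
    v e ∈ Submodule.span K (v '' (X : Set E)) :=
  Submodule.subset_span ⟨e, by simpa using h, rfl⟩

lemma exists_zero (h : R v Finset.univ = p) (X : Finset E) (hX : X.card = p) (hX2 : R v X < p) :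
    ∃ B : Finset E, B.card = p ∧ R v B = p ∧ ∃ φ : E → ((Fin p → K) →ₗ[K] K),
      (∀ x, x = ∑ i ∈ B, φ i x • v i) ∧
      (∀ i ∈ B, ∀ j ∈ B, φ i (v j) = if i = j then 1 else 0) ∧
      ∃ i0 ∈ B, ∃ e0, e0 ∉ B ∧ φ i0 (v e0) = 0 := by
  classical
  obtain ⟨B0, hB0, hB0'⟩ := exists_base h
  obtain ⟨B, hB, hmax⟩ := Finset.exists_max_image
    ((Finset.univ : Finset (Finset E)).filter fun B => B.card = p ∧ R v B = p)
    (fun B => (B ∩ X).card) ⟨B0, by simp [hB0, hB0']⟩
  simp only [Finset.mem_filter, Finset.mem_univ, true_and] at hB hmax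
  obtain ⟨φ, hφ, hφ1⟩ := coords B hB.1 hB.2
  refine ⟨B, hB.1, hB.2, φ, hφ, hφ1, ?_⟩
  have hne : X ≠ B := by
    rintro rfl
    omega
  have h1 : ∃ e0 ∈ X, e0 ∉ B := by
    by_contra hcon
    push Not at hcon
    exact hne (Finset.eq_of_subset_of_card_le hcon (by omega))
  have h2 : ∃ i0 ∈ B, i0 ∉ X := by
    by_contra hcon
    push Not at hcon
    exact hne (Finset.eq_of_subset_of_card_le hcon (by omega)).symm
  obtain ⟨e0, he0, he0B⟩ := h1
  obtain ⟨i0, hi0, hi0X⟩ := h2
  refine ⟨i0, hi0, e0, he0B, ?_⟩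
  by_contra h3
  have h4 := hmax (insert e0 (B.erase i0)) ⟨by
    rw [Finset.card_insert_of_notMem (by simp [he0B]), Finset.card_erase_of_mem hi0]
    have : 0 < B.card := Finset.card_pos.mpr ⟨i0, hi0⟩
    omega, by
    apply R_full B _ hB.2
    intro i hi
    by_cases h5 : i = i0
    · subst h5
      apply exch B φ hφ i hi e0 h3
      · exact mem_sp _ _ (by simp)
      · intro j hj hj2 _
        exact mem_sp _ _ (by simp [hj, hj2])
    · exact mem_sp _ _ (by simp [hi, h5])⟩
  have h5 : insert e0 (B ∩ X) ⊆ (insert e0 (B.erase i0)) ∩ X := by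
    intro x hx
    simp only [Finset.mem_insert, Finset.mem_inter, Finset.mem_erase] at hx ⊢
    rcases hx with rfl | ⟨hx1, hx2⟩
    · exact ⟨Or.inl rfl, he0⟩
    · refine ⟨Or.inr ⟨?_, hx1⟩, hx2⟩
      rintro rfl
      exact hi0X hx2
  have h6 := Finset.card_le_card h5
  rw [Finset.card_insert_of_notMem (by simp [he0B])] at h6
  omega

theorem t : Pool.Agent.Helper64.RN.S_SP.{u} := by
  intro K _ E _ _ p v hun hconn hX
  classical
  obtain ⟨X, hX, hX2⟩ := hX
  obtain ⟨B, hBc, hBr, φ, hφ, hφ1, i0, hi0, e0, he0B, he0⟩ := exists_zero hun X hX hX2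
  have claim : ∃ i ∈ B, ∃ i' ∈ B, ∃ e, e ∉ B ∧ ∃ e', e' ∉ B ∧ φ i (v e) ≠ 0 ∧ φ i' (v e) ≠ 0 ∧
      φ i' (v e') ≠ 0 ∧ φ i (v e') = 0 := by
    by_contra hcon
    push Not at hcon
    let N : Finset E := Finset.univ.filter fun e => e ∉ B ∧ φ i0 (v e) ≠ 0
    let Z : Finset E := (B.filter fun i => i = i0 ∨ ∃ e ∈ N, φ i (v e) ≠ 0) ∪ N
    have hN : ∀ e, e ∈ N ↔ e ∉ B ∧ φ i0 (v e) ≠ 0 := by
      intro e
      simp [N]
    have hZ : ∀ e, e ∈ Z ↔ (e ∈ B ∧ (e = i0 ∨ ∃ e' ∈ N, φ e (v e') ≠ 0)) ∨ e ∈ N := by
      intro e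
      simp only [Z, Finset.mem_union, Finset.mem_filter]
    have h1 : i0 ∈ Z := (hZ i0).mpr (Or.inl ⟨hi0, Or.inl rfl⟩)
    have h2 : e0 ∉ Z := by
      rw [hZ, hN]
      rintro (⟨h, -⟩ | ⟨-, h⟩)
      · exact he0B h
      · exact h he0
    have h3 := hconn Z ⟨i0, h1⟩ ⟨e0, by simpa using h2⟩
    have h4 : R v Z ≤ (B ∩ Z).card := by
      apply R_le_of_subset_span
      intro e he
      rw [hφ (v e)]
      refine Submodule.sum_mem _ ?_
      intro i hi
      by_cases h5 : φ i (v e) = 0
      · rw [h5, zero_smul]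
        exact Submodule.zero_mem _
      · apply Submodule.smul_mem
        apply mem_sp
        rw [Finset.mem_inter]
        refine ⟨hi, ?_⟩
        by_cases heB : e ∈ B
        · rw [hφ1 i hi e heB] at h5
          have : i = e := by
            by_contra h6
            simp [h6] at h5
          rw [this]
          exact he
        · have heN : e ∈ N := by
            rcases (hZ e).mp he with ⟨h6, -⟩ | h6
            · exact absurd h6 heB
            · exact h6
          exact (hZ i).mpr (Or.inl ⟨hi, Or.inr ⟨e, heN, h5⟩⟩)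
    have h5 : R v Zᶜ ≤ (B \ Z).card := by
      apply R_le_of_subset_span
      intro e he
      rw [Finset.mem_compl] at he
      rw [hφ (v e)]
      refine Submodule.sum_mem _ ?_
      intro i hi
      by_cases h5 : φ i (v e) = 0
      · rw [h5, zero_smul]
        exact Submodule.zero_mem _
      · apply Submodule.smul_mem
        apply mem_sp
        rw [Finset.mem_sdiff]
        refine ⟨hi, ?_⟩
        by_cases heB : e ∈ B
        · rw [hφ1 i hi e heB] at h5
          have : i = e := by
            by_contra h6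
            simp [h6] at h5
          rw [this]
          exact he
        · have heN : φ i0 (v e) = 0 := by
            by_contra h6
            exact he ((hZ e).mpr (Or.inr ((hN e).mpr ⟨heB, h6⟩)))
          intro hiZ
          rcases (hZ i).mp hiZ with ⟨-, h6 | ⟨e1, he1, h6⟩⟩ | h6
          · rw [h6] at h5
            exact h5 heN
          · rw [hN] at he1
            exact hcon i0 hi0 i hi e1 he1.1 e heB he1.2 h6 h5 heN
          · rw [hN] at h6
            exact h6.1 hi
    have h6 := Finset.card_inter_add_card_sdiff B Z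
    omega
  obtain ⟨i, hi, i', hi', e, heB, e', he'B, h1, h2, h3, h4⟩ := claim
  have hii' : i ≠ i' := by
    rintro rfl
    exact h3 h4
  have hee' : e ≠ e' := by
    rintro rfl
    exact h1 h4
  have hie : i ≠ e := by
    rintro rfl
    exact heB hi
  have hie' : i ≠ e' := by
    rintro rfl
    exact he'B hi
  have hi'e : i' ≠ e := by
    rintro rfl
    exact heB hi'
  have hi'e' : i' ≠ e' := by
    rintro rfl
    exact he'B hi'
  have hmem : ∀ j ∈ B, j ≠ i → j ≠ i' → j ∈ (B.erase i).erase i' := by
    intro j hj h5 h6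
    simp [hj, h5, h6]
  refine ⟨(B.erase i).erase i', i, e, i', e', ?_, ?_, ?_, ?_, ?_, ?_⟩
  · rw [Finset.card_erase_of_mem (by simp [hi', hii'.symm]), Finset.card_erase_of_mem hi]
    have : 1 < B.card := Finset.one_lt_card.mpr ⟨i, hi, i', hi', hii'⟩
    omega
  · simp [hii', hee', hie, hie', hi'e.symm, hi'e']
  · simp [heB, he'B]
  · have hle : R v (insert i' (insert e' ((B.erase i).erase i'))) ≤ (B.erase i).card := by
      apply R_le_of_subset_span
      intro x hx
      have hx2 : φ i (v x) = 0 := by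
        simp only [Finset.mem_insert, Finset.mem_erase] at hx
        rcases hx with rfl | rfl | ⟨hx1, hx2, hx3⟩
        · rw [hφ1 i hi x hi']
          simp [hii']
        · exact h4
        · rw [hφ1 i hi x hx3]
          simp [Ne.symm hx2]
      rw [hφ (v x)]
      refine Submodule.sum_mem _ ?_
      intro j hj
      by_cases h5 : φ j (v x) = 0
      · rw [h5, zero_smul]
        exact Submodule.zero_mem _
      · apply Submodule.smul_mem
        apply mem_sp
        rw [Finset.mem_erase]
        refine ⟨?_, hj⟩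
        rintro rfl
        exact h5 hx2
    rw [Finset.card_erase_of_mem hi] at hle
    have : 0 < B.card := Finset.card_pos.mpr ⟨i, hi⟩
    omega
  · apply R_full B _ hBr
    intro j hj
    apply mem_sp
    by_cases h5 : j = i
    · simp [h5]
    · by_cases h6 : j = i'
      · simp [h6]
      · simp [hj, h5, h6]
  · have hi'W : v i' ∈ Submodule.span K
        (v '' ((insert e (insert e' ((B.erase i).erase i')) : Finset E) : Set E)) := by
      apply exch B φ hφ i' hi' e' h3
      · exact mem_sp _ _ (by simp)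
      · intro j hj hj2 hj3
        have h5 : j ≠ i := by
          rintro rfl
          exact hj3 h4
        exact mem_sp _ _ (by simp [hj, h5, hj2])
    have hiW : v i ∈ Submodule.span K
        (v '' ((insert e (insert e' ((B.erase i).erase i')) : Finset E) : Set E)) := by
      apply exch B φ hφ i hi e h1
      · exact mem_sp _ _ (by simp)
      · intro j hj hj2 hj3
        by_cases h5 : j = i'
        · rw [h5]
          exact hi'W
        · exact mem_sp _ _ (by simp [hj, h5, hj2])
    apply R_full B _ hBr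
    intro j hj
    by_cases h5 : j = i
    · rw [h5]
      exact hiW
    · by_cases h6 : j = i'
      · rw [h6]
        exact hi'W
      · exact mem_sp _ _ (by simp [hj, h5, h6])

end Pool.Agent.Helper87.RN.SP
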